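import Mathlib

/-!
# The Hasse principle for quadratic forms in `k`-th powers fails for even `k`

For every even `k > 0` and every `s ≥ (2 k) ^ 3 + 2` there is a nonsingular quadratic form
`Q = (x₀ - 2 x₁) ^ 2 + x₀ x₂ + ∑_{i ≥ 2} x_i ^ 2` in `s` variables over `ℚ` such that
`F = Q(y₀ ^ k, …)` has nontrivial zeros over `ℝ` and over all `ℚ_p` but not over `ℚ`.
-/

set_option autoImplicit false

namespace Pool.Agent.Results.MP_c0a553_nt.EvenExponents

open Finset

/-- The form `F(y) = Q(y₁ ^ k, …, y_s ^ k)`, where `Q(x) = ∑ A i j x_i x_j`, has a nontrivial zero over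
the field `K`. -/
def HasZero (k : ℕ) {s : ℕ} (A : Matrix (Fin s) (Fin s) ℚ) (K : Type) [Field K] [Algebra ℚ K] :
    Prop :=
  ∃ y : Fin s → K, y ≠ 0 ∧ ∑ i, ∑ j, algebraMap ℚ K (A i j) * y i ^ k * y j ^ k = 0

/-- The form `F(y) = Q(y₁ ^ k, …, y_s ^ k)`, where `Q(x) = ∑ A i j x_i x_j`, satisfies the Hasse
principle. -/
def HassePrinciple (k : ℕ) {s : ℕ} (A : Matrix (Fin s) (Fin s) ℚ) : Prop :=
  HasZero k A ℝ → (∀ (p : ℕ) [Fact p.Prime], HasZero k A ℚ_[p]) → HasZero k A ℚ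

/-- Every `F = Q(y₁ ^ k, …, y_s ^ k)` in `s ≥ s₀` variables, with `Q` a nonsingular quadratic form
over `ℚ` (given by a symmetric matrix of nonzero determinant), satisfies the Hasse principle. -/
def Threshold (k s₀ : ℕ) : Prop :=
  ∀ s : ℕ, s₀ ≤ s → ∀ A : Matrix (Fin s) (Fin s) ℚ, A.IsSymm → A.det ≠ 0 → HassePrinciple k A

/-- `h(k)`, the least `s₀ ≥ 1` such that the Hasse principle holds for all forms `Q(y₁ ^ k, …, y_s ^ k)`
in `s ≥ s₀` variables; `⊤` if there is no such `s₀`. -/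
noncomputable def h (k : ℕ) : ℕ∞ := ⨅ s₀ ∈ {s₀ : ℕ | 1 ≤ s₀ ∧ Threshold k s₀}, (s₀ : ℕ∞)

/-! ### the form -/

/-- the matrix of `(x₀ - 2 x₁) ^ 2 + x₀ x₂ + ∑_{i ≥ 2} x_i ^ 2` -/
def mat (n : ℕ) : Matrix (Fin (n + 3)) (Fin (n + 3)) ℚ := fun i j =>
  (if i = j then 1 else 0) + (if i = 1 ∧ j = 1 then 3 else 0) +
    (if i = 0 ∧ j = 1 then -2 else 0) + (if i = 1 ∧ j = 0 then -2 else 0) +
    (if i = 0 ∧ j = 2 then 1 / 2 else 0) + (if i = 2 ∧ j = 0 then 1 / 2 else 0)

theorem mat_symm (n : ℕ) : (mat n).IsSymm := by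
  ext i j
  simp only [Matrix.transpose_apply, mat]
  have e1 : (if j = i then (1 : ℚ) else 0) = if i = j then 1 else 0 := by
    simp only [eq_comm]
  have e2 : (if j = 1 ∧ i = 1 then (3 : ℚ) else 0) = if i = 1 ∧ j = 1 then 3 else 0 := by
    simp only [and_comm]
  have e3 : (if j = 0 ∧ i = 1 then (-2 : ℚ) else 0) = if i = 1 ∧ j = 0 then -2 else 0 := by
    simp only [and_comm]
  have e4 : (if j = 1 ∧ i = 0 then (-2 : ℚ) else 0) = if i = 0 ∧ j = 1 then -2 else 0 := by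
    simp only [and_comm]
  have e5 : (if j = 0 ∧ i = 2 then (1 / 2 : ℚ) else 0) = if i = 2 ∧ j = 0 then 1 / 2 else 0 := by
    simp only [and_comm]
  have e6 : (if j = 2 ∧ i = 0 then (1 / 2 : ℚ) else 0) = if i = 0 ∧ j = 2 then 1 / 2 else 0 := by
    simp only [and_comm]
  rw [e1, e2, e3, e4, e5, e6]
  ring

theorem sum_ite_and {R : Type} [CommRing R] {n : ℕ} (a b : Fin n) (c : R) (u w : Fin n → R) :
    ∑ i, ∑ j, (if i = a ∧ j = b then c else 0) * u i * w j = c * u a * w b := by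
  rw [Finset.sum_eq_single a, Finset.sum_eq_single b]
  · simp
  · intro j _ hj; simp [hj]
  · simp
  · intro i _ hi; simp [hi]
  · simp

theorem sum_ite_eq' {R : Type} [CommRing R] {n : ℕ} (u w : Fin n → R) :
    ∑ i, ∑ j, (if i = j then (1 : R) else 0) * u i * w j = ∑ i, u i * w i := by
  refine Finset.sum_congr rfl fun i _ => ?_
  rw [Finset.sum_eq_single i]
  · simp
  · intro j _ hj; simp [Ne.symm hj]
  · simp

/-- the value of the bilinear form -/
theorem bilin {K : Type} [Field K] [Algebra ℚ K] (n : ℕ) (u w : Fin (n + 3) → K) :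
    ∑ i, ∑ j, algebraMap ℚ K (mat n i j) * u i * w j =
      ∑ i, u i * w i + 3 * u 1 * w 1 + (-2) * u 0 * w 1 + (-2) * u 1 * w 0 +
        (1 / 2) * u 0 * w 2 + (1 / 2) * u 2 * w 0 := by
  have e : ∀ i j, algebraMap ℚ K (mat n i j) * u i * w j =
      (if i = j then (1 : K) else 0) * u i * w j + (if i = 1 ∧ j = 1 then (3 : K) else 0) * u i * w j +
      (if i = 0 ∧ j = 1 then (-2 : K) else 0) * u i * w j +
      (if i = 1 ∧ j = 0 then (-2 : K) else 0) * u i * w j +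
      (if i = 0 ∧ j = 2 then (1 / 2 : K) else 0) * u i * w j +
      (if i = 2 ∧ j = 0 then (1 / 2 : K) else 0) * u i * w j := by
    intro i j
    unfold mat
    simp only [map_add, apply_ite (algebraMap ℚ K), map_one, map_zero, map_neg, map_div₀,
      map_ofNat]
    ring
  simp only [e, Finset.sum_add_distrib, sum_ite_and, sum_ite_eq']

theorem quad {K : Type} [Field K] [CharZero K] [Algebra ℚ K] (n : ℕ) (u : Fin (n + 3) → K) :
    ∑ i, ∑ j, algebraMap ℚ K (mat n i j) * u i * u j =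
      (u 0 - 2 * u 1) ^ 2 + u 0 * u 2 + ∑ i : Fin (n + 1), u i.succ.succ ^ 2 := by
  rw [bilin, Fin.sum_univ_succ, Fin.sum_univ_succ]
  have h1 : (Fin.succ 0 : Fin (n + 3)) = 1 := rfl
  rw [h1]
  have h2 : ∑ i : Fin (n + 1), u i.succ.succ * u i.succ.succ = ∑ i : Fin (n + 1), u i.succ.succ ^ 2 :=
    Finset.sum_congr rfl fun i _ => (sq _).symm
  rw [h2]
  ring

theorem succ_succ_ne {n : ℕ} (i : Fin (n + 1)) :
    (i.succ.succ : Fin (n + 3)) ≠ 0 ∧ (i.succ.succ : Fin (n + 3)) ≠ 1 := by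
  refine ⟨Fin.succ_ne_zero _, ?_⟩
  rw [Ne, Fin.ext_iff]
  simp

theorem two_ne_zero' (n : ℕ) : (2 : Fin (n + 3)) ≠ 0 := (succ_succ_ne (0 : Fin (n + 1))).1

theorem two_ne_one' (n : ℕ) : (2 : Fin (n + 3)) ≠ 1 := (succ_succ_ne (0 : Fin (n + 1))).2

theorem mat_det (n : ℕ) : (mat n).det ≠ 0 := by
  intro h0
  obtain ⟨v, hv, hz⟩ := Matrix.exists_mulVec_eq_zero_iff.2 h0
  apply hv
  have key : ∀ w : Fin (n + 3) → ℚ, ∑ i, w i * v i + 3 * w 1 * v 1 + (-2) * w 0 * v 1 +
      (-2) * w 1 * v 0 + (1 / 2) * w 0 * v 2 + (1 / 2) * w 2 * v 0 = 0 := by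
    intro w
    rw [← bilin n w v]
    have : ∀ i, ∑ j, algebraMap ℚ ℚ (mat n i j) * w i * v j = w i * (mat n).mulVec v i := by
      intro i
      rw [Matrix.mulVec, dotProduct, Finset.mul_sum]
      refine Finset.sum_congr rfl fun j _ => ?_
      simp
      ring
    simp only [this, hz, Pi.zero_apply, mul_zero, Finset.sum_const_zero]
  have key' : ∀ a : Fin (n + 3), v a + 3 * (if 1 = a then 1 else 0) * v 1 +
      (-2) * (if 0 = a then 1 else 0) * v 1 + (-2) * (if 1 = a then 1 else 0) * v 0 +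
      (1 / 2) * (if 0 = a then 1 else 0) * v 2 + (1 / 2) * (if 2 = a then 1 else 0) * v 0 = 0 := by
    intro a
    have h1 := key (fun i => if i = a then 1 else 0)
    have h2 : ∑ i, (if i = a then (1 : ℚ) else 0) * v i = v a := by
      rw [Finset.sum_eq_single a]
      · simp
      · intro j _ hj; simp [hj]
      · simp
    simp only [h2] at h1
    exact h1
  have k1 := key' 1
  have k0 := key' 0
  have k2 := key' 2
  have n10 : (1 : Fin (n + 3)) ≠ 0 := by simp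
  have n20 : (2 : Fin (n + 3)) ≠ 0 := two_ne_zero' n
  have n21 : (2 : Fin (n + 3)) ≠ 1 := two_ne_one' n
  simp only [n10, n10.symm, n20, n20.symm, n21, n21.symm, if_true, if_false] at k0 k1 k2
  have v0 : v 0 = 0 := by linarith
  have v1 : v 1 = 0 := by linarith
  have v2 : v 2 = 0 := by linarith
  funext a
  have := key' a
  by_cases ha1 : a = 1
  · rw [ha1, v1]; rfl
  by_cases ha0 : a = 0
  · rw [ha0, v0]; rfl
  by_cases ha2 : a = 2
  · rw [ha2, v2]; rfl
  simpa [Ne.symm ha1, Ne.symm ha0, Ne.symm ha2] using this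

/-! ### zeros over `ℝ` and over `ℚ` -/

theorem real_zero {k : ℕ} (hk : 0 < k) (n : ℕ) : HasZero k (mat n) ℝ := by
  set r : ℝ := (2 : ℝ) ^ ((k : ℝ)⁻¹) with hr
  have hrk : r ^ k = 2 := Real.rpow_inv_natCast_pow (by norm_num) hk.ne'
  refine ⟨fun i => if i = 0 then r else if i = 1 then 1 else 0, ?_, ?_⟩
  · intro h0
    have := congrFun h0 1
    simp at this
  · rw [quad (K := ℝ) n (fun i => (if i = 0 then r else if i = 1 then 1 else 0) ^ k)]
    have n10 : (1 : Fin (n + 3)) ≠ 0 := by simp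
    have hss : ∀ i : Fin (n + 1), (i.succ.succ : Fin (n + 3)) ≠ 0 ∧ (i.succ.succ : Fin (n + 3)) ≠ 1 := by
      intro i
      refine ⟨Fin.succ_ne_zero _, ?_⟩
      rw [Ne, Fin.ext_iff]
      simp
    have n20 : (2 : Fin (n + 3)) ≠ 0 := (hss 0).1
    have n21 : (2 : Fin (n + 3)) ≠ 1 := (hss 0).2
    simp only [n10, n20, n21, if_true, if_false, hrk, (hss _).1, (hss _).2, zero_pow hk.ne',
      one_pow]
    simp

theorem two_ne_pow {k : ℕ} (hk : 2 ≤ k) (q : ℚ) : q ^ k ≠ 2 := by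
  intro h
  have hq : q ≠ 0 := by
    rintro rfl
    rw [zero_pow (by omega)] at h
    norm_num at h
  have : Fact (Nat.Prime 2) := ⟨Nat.prime_two⟩
  have h1 : padicValRat 2 (q ^ k) = 1 := by
    rw [h]
    exact_mod_cast padicValRat.self (p := 2) (by norm_num)
  rw [padicValRat.pow] at h1
  have h2 : (k : ℤ) ∣ 1 := ⟨_, h1.symm⟩
  have h3 := Int.le_of_dvd (by norm_num) h2
  omega

theorem no_rat_zero {k : ℕ} (hk : 2 ≤ k) (he : Even k) (n : ℕ) : ¬ HasZero k (mat n) ℚ := by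
  rintro ⟨y, hy, hz⟩
  apply hy
  rw [quad n (fun i => y i ^ k)] at hz
  have hp : ∀ i, 0 ≤ y i ^ k := fun i => he.pow_nonneg _
  have s1 : 0 ≤ (y 0 ^ k - 2 * y 1 ^ k) ^ 2 := sq_nonneg _
  have s2 : 0 ≤ y 0 ^ k * y 2 ^ k := mul_nonneg (hp 0) (hp 2)
  have s3 : ∀ i ∈ (Finset.univ : Finset (Fin (n + 1))), 0 ≤ (y i.succ.succ ^ k) ^ 2 :=
    fun i _ => sq_nonneg _
  have s4 := Finset.sum_nonneg s3
  have z3 : ∑ i : Fin (n + 1), (y i.succ.succ ^ k) ^ 2 = 0 := by linarith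
  have z1 : (y 0 ^ k - 2 * y 1 ^ k) ^ 2 = 0 := by linarith
  have z1' : y 0 ^ k = 2 * y 1 ^ k := by
    have := pow_eq_zero_iff (two_ne_zero) |>.1 z1
    linarith
  have z4 : ∀ i : Fin (n + 1), y i.succ.succ = 0 := by
    intro i
    have := (Finset.sum_eq_zero_iff_of_nonneg s3).1 z3 i (Finset.mem_univ i)
    exact (pow_eq_zero_iff (by omega)).1 ((pow_eq_zero_iff two_ne_zero).1 this)
  have y1 : y 1 = 0 := by
    by_contra h1
    have : (y 0 / y 1) ^ k = 2 := by
      rw [div_pow, z1', mul_div_assoc, div_self (pow_ne_zero _ h1), mul_one]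
    exact two_ne_pow hk _ this
  have y0 : y 0 = 0 := by
    rw [y1, zero_pow (by omega), mul_zero] at z1'
    exact (pow_eq_zero_iff (by omega)).1 z1'
  funext i
  refine Fin.cases y0 (fun j => Fin.cases ?_ (fun l => z4 l) j) i
  exact y1

/-! ### zeros over `ℚ_p` -/

/-- a sum of `N` powers with exponent `d` vanishes nontrivially over `ℤ_p` -/
def Vanish (p d N : ℕ) [Fact p.Prime] : Prop :=
  ∃ z : Fin N → ℤ_[p], z ≠ 0 ∧ ∑ i, z i ^ d = 0

open Polynomial in
/-- the case `p ∤ d` -/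
theorem vanish_coprime {p d N : ℕ} [hp : Fact p.Prime] (hd : 0 < d) (hpd : ¬ p ∣ d) (hN : d < N) :
    Vanish p d N := by
  classical
  -- Chevalley-Warning
  let f : MvPolynomial (Fin N) (ZMod p) := ∑ i, MvPolynomial.X i ^ d
  have hdeg : f.totalDegree < Fintype.card (Fin N) := by
    rw [Fintype.card_fin]
    refine lt_of_le_of_lt ?_ hN
    refine (MvPolynomial.totalDegree_finsetSum _ _).trans (Finset.sup_le fun i _ => ?_)
    refine (MvPolynomial.totalDegree_pow _ _).trans ?_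
    rw [MvPolynomial.totalDegree_X, mul_one]
  have hdiv := char_dvd_card_solutions p hdeg
  have hf : ∀ x : Fin N → ZMod p, MvPolynomial.eval x f = ∑ i, x i ^ d := by
    intro x; simp [f]
  have hex : ∃ x : Fin N → ZMod p, x ≠ 0 ∧ ∑ i, x i ^ d = 0 := by
    by_contra hno
    push Not at hno
    have hcard : Fintype.card { x : Fin N → ZMod p // MvPolynomial.eval x f = 0 } = 1 := by
      rw [Fintype.card_eq_one_iff]
      refine ⟨⟨0, ?_⟩, ?_⟩
      · rw [hf]; simp [zero_pow hd.ne']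
      · rintro ⟨x, hx⟩
        rw [Subtype.mk.injEq]
        by_contra h0
        rw [hf] at hx
        exact hno x h0 hx
    rw [hcard] at hdiv
    exact hp.out.one_lt.ne' (Nat.dvd_one.1 hdiv)
  obtain ⟨x, hx0, hx⟩ := hex
  obtain ⟨j, hj⟩ := Function.ne_iff.1 hx0
  rw [Pi.zero_apply] at hj
  let a : Fin N → ℤ_[p] := fun i => ((x i).val : ℤ_[p])
  have ha : ∀ i, PadicInt.toZMod (a i) = x i := by
    intro i
    simp only [a]
    rw [map_natCast, ZMod.natCast_zmod_val]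
  set c : ℤ_[p] := ∑ i ∈ Finset.univ.erase j, a i ^ d with hc
  let F : Polynomial ℤ_[p] := X ^ d + C c
  have hFz : ∀ z, F.aeval z = z ^ d + c := by intro z; simp [F]
  have hFa : F.aeval (a j) = ∑ i, a i ^ d := by
    rw [hFz, hc]
    exact Finset.add_sum_erase _ (fun i => a i ^ d) (Finset.mem_univ j)
  have hF' : F.derivative.aeval (a j) = d * a j ^ (d - 1) := by
    simp [F, Polynomial.derivative_X_pow]
  have hn1 : ‖F.aeval (a j)‖ < 1 := by
    rw [hFa, PadicInt.norm_lt_one_iff_dvd, ← PadicInt.norm_lt_one_iff_dvd,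
      ← PadicInt.mem_nonunits, ← IsLocalRing.mem_maximalIdeal, ← PadicInt.ker_toZMod, RingHom.mem_ker,
      map_sum]
    simp only [map_pow, ha]
    exact hx
  have hunit : ∀ z : ℤ_[p], PadicInt.toZMod z ≠ 0 → ‖z‖ = 1 := by
    intro z hz
    by_contra hne
    have hlt : ‖z‖ < 1 := lt_of_le_of_ne (PadicInt.norm_le_one z) hne
    apply hz
    rw [← RingHom.mem_ker, PadicInt.ker_toZMod, IsLocalRing.mem_maximalIdeal, PadicInt.mem_nonunits]
    exact hlt
  have haj : ‖a j‖ = 1 := hunit _ (by rw [ha]; exact hj)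
  have hdn : ‖(d : ℤ_[p])‖ = 1 := by
    apply hunit
    rw [map_natCast]
    intro h0
    exact hpd ((ZMod.natCast_eq_zero_iff _ _).1 h0)
  have hn2 : ‖F.derivative.aeval (a j)‖ = 1 := by
    rw [hF', norm_mul, norm_pow, hdn, haj, one_pow, one_mul]
  obtain ⟨z, hz, hz1, -⟩ := hensels_lemma (F := F) (a := a j) (by rw [hn2, one_pow]; exact hn1)
  refine ⟨Function.update a j z, ?_, ?_⟩
  · intro h0
    have h1 := congrFun h0 j
    rw [Function.update_self, Pi.zero_apply] at h1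
    rw [h1, zero_sub, norm_neg, haj, hn2] at hz1
    exact lt_irrefl _ hz1
  · rw [← Finset.add_sum_erase _ _ (Finset.mem_univ j), Function.update_self]
    have : ∑ i ∈ Finset.univ.erase j, Function.update a j z i ^ d = c := by
      rw [hc]
      refine Finset.sum_congr rfl fun i hi => ?_
      rw [Function.update_of_ne (Finset.ne_of_mem_erase hi)]
    rw [this, ← hFz]
    exact hz

open Polynomial in
/-- the case `p ∣ d` -/
theorem vanish_dvd {p d N : ℕ} [hp : Fact p.Prime] (hd : 0 < d) (hpd : p ∣ d) (hN : d ^ 3 ≤ N) :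
    Vanish p d N := by
  classical
  set v := padicValNat p d with hv
  set m := 2 * v + 1 with hm
  have hpv : p ^ v ∣ d := pow_padicValNat_dvd
  have hpm : p ^ m ≤ N := by
    have h1 : p ^ v ≤ d := Nat.le_of_dvd hd hpv
    have h2 : p ≤ d := Nat.le_of_dvd hd hpd
    calc p ^ m = p ^ v * p ^ v * p := by rw [hm]; ring
      _ ≤ d * d * d := by gcongr
      _ = d ^ 3 := by ring
      _ ≤ N := hN
  have hpp : 0 < p ^ m := pow_pos hp.out.pos _
  let F : Polynomial ℤ_[p] := X ^ d - C (1 - (p : ℤ_[p]) ^ m)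
  have hFz : ∀ z, F.aeval z = z ^ d - (1 - (p : ℤ_[p]) ^ m) := by intro z; simp [F]
  have hF' : F.derivative.aeval (1 : ℤ_[p]) = d := by
    have h1 : F.derivative = C (d : ℤ_[p]) * X ^ (d - 1) := by
      simp only [F]
      rw [derivative_sub, derivative_C, derivative_X_pow, sub_zero]
    rw [h1]
    simp
  have hnd : ‖(d : ℤ_[p])‖ = (p : ℝ) ^ (-(v : ℤ)) := by
    have h1 := Padic.norm_eq_zpow_neg_valuation (p := p) (x := (d : ℚ_[p])) (by exact_mod_cast hd.ne')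
    rw [PadicInt.norm_def, PadicInt.coe_natCast, h1, Padic.valuation_natCast]
  have hcond : ‖F.aeval (1 : ℤ_[p])‖ < ‖F.derivative.aeval (1 : ℤ_[p])‖ ^ 2 := by
    rw [hFz, hF', hnd, one_pow]
    have : (1 : ℤ_[p]) - (1 - (p : ℤ_[p]) ^ m) = (p : ℤ_[p]) ^ m := by ring
    rw [this, norm_pow, PadicInt.norm_p, ← zpow_natCast, ← zpow_natCast, ← zpow_mul, inv_zpow',]
    apply zpow_lt_zpow_right₀ (by exact_mod_cast hp.out.one_lt)
    rw [hm]; push_cast; omega
  obtain ⟨z, hz, hz1, -⟩ := hensels_lemma (F := F) (a := 1) hcond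
  rw [hFz] at hz
  have hN0 : 0 < N := lt_of_lt_of_le hpp hpm
  refine ⟨fun i => if (i : ℕ) = 0 then z else if (i : ℕ) < p ^ m then 1 else 0, ?_, ?_⟩
  · intro h0
    have h1 := congrFun h0 ⟨0, hN0⟩
    simp only [Pi.zero_apply, if_true] at h1
    rw [h1, zero_sub, norm_neg, hF', norm_one] at hz1
    exact absurd (PadicInt.norm_le_one (d : ℤ_[p])) (not_le.2 hz1)
  · rw [Fin.sum_univ_eq_sum_range (fun i => (if i = 0 then z else if i < p ^ m then (1 : ℤ_[p]) else 0) ^ d) N]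
    obtain ⟨N', rfl⟩ : ∃ N', N = N' + 1 := ⟨N - 1, by omega⟩
    rw [Finset.sum_range_succ']
    simp only [if_true]
    have h1 : ∑ i ∈ Finset.range N', (if i + 1 = 0 then z else if i + 1 < p ^ m then (1 : ℤ_[p]) else 0) ^ d
        = ((p ^ m - 1 : ℕ) : ℤ_[p]) := by
      have h2 : ∀ i ∈ Finset.range N', (if i + 1 = 0 then z else if i + 1 < p ^ m then (1 : ℤ_[p]) else 0) ^ d
          = if i ∈ Finset.range (p ^ m - 1) then (1 : ℤ_[p]) else 0 := by
        intro i _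
        by_cases hi : i + 1 < p ^ m
        · rw [if_neg (by omega), if_pos hi, if_pos (by rw [Finset.mem_range]; omega), one_pow]
        · rw [if_neg (by omega), if_neg hi, if_neg (by rw [Finset.mem_range]; omega), zero_pow hd.ne']
      rw [Finset.sum_congr rfl h2, Finset.sum_ite_mem, Finset.inter_eq_right.2, Finset.sum_const,
        Finset.card_range, nsmul_eq_mul, mul_one]
      intro i hi
      rw [Finset.mem_range] at hi ⊢
      omega
    rw [h1, Nat.cast_sub hpp]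
    push_cast
    linear_combination hz

theorem vanish {p d N : ℕ} [hp : Fact p.Prime] (hd : 2 ≤ d) (hN : d ^ 3 ≤ N) : Vanish p d N := by
  by_cases hpd : p ∣ d
  · exact vanish_dvd (by omega) hpd hN
  · refine vanish_coprime (by omega) hpd (lt_of_lt_of_le ?_ hN)
    calc d < d * d := by nlinarith
      _ ≤ d * d * d := Nat.le_mul_of_pos_right _ (by omega)
      _ = d ^ 3 := by ring

theorem padic_zero {k : ℕ} (hk : 0 < k) (n : ℕ) (hn : (2 * k) ^ 3 ≤ n + 1) (p : ℕ)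
    [hp : Fact p.Prime] : HasZero k (mat n) ℚ_[p] := by
  obtain ⟨z, hz, hs⟩ := vanish (p := p) (d := 2 * k) (by omega) hn
  refine ⟨Fin.cons 0 (Fin.cons 0 (fun i => (z i : ℚ_[p]))), ?_, ?_⟩
  · intro h0
    apply hz
    funext i
    have := congrFun h0 i.succ.succ
    simpa using this
  · rw [quad n (fun i => (Fin.cons 0 (Fin.cons 0 (fun i => (z i : ℚ_[p]))) : Fin (n + 3) → ℚ_[p]) i ^ k)]
    have h0 : (Fin.cons 0 (Fin.cons 0 (fun i => (z i : ℚ_[p]))) : Fin (n + 3) → ℚ_[p]) 0 = 0 := rfl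
    have h1 : (Fin.cons 0 (Fin.cons 0 (fun i => (z i : ℚ_[p]))) : Fin (n + 3) → ℚ_[p]) 1 = 0 := rfl
    have h2 : ∀ i : Fin (n + 1), (Fin.cons 0 (Fin.cons 0 (fun i => (z i : ℚ_[p]))) :
        Fin (n + 3) → ℚ_[p]) i.succ.succ = z i := fun i => rfl
    simp only [h0, h1, h2, zero_pow hk.ne']
    have h3 : ∑ i : Fin (n + 1), (((z i : ℚ_[p])) ^ k) ^ 2 = 0 := by
      have h5 : ∀ i : Fin (n + 1), (((z i : ℚ_[p])) ^ k) ^ 2 =
          PadicInt.Coe.ringHom (z i ^ (2 * k)) := by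
        intro i
        rw [map_pow, ← pow_mul, mul_comm]
        rfl
      simp only [h5]
      rw [← map_sum, hs, map_zero]
    rw [h3]
    ring

/-- For every even `k > 0` and every `s ≥ (2 k) ^ 3 + 2` some form in `s` variables violates the Hasse
principle. -/
theorem fails {k : ℕ} (hk : 0 < k) (he : Even k) (s : ℕ) (hs : (2 * k) ^ 3 + 2 ≤ s) :
    ∃ A : Matrix (Fin s) (Fin s) ℚ, A.IsSymm ∧ A.det ≠ 0 ∧ ¬ HassePrinciple k A := by
  have hk2 : 2 ≤ k := by
    rcases he with ⟨r, hr⟩; omega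
  have h8 : 0 < (2 * k) ^ 3 := by positivity
  obtain ⟨n, rfl⟩ : ∃ n, s = n + 3 := ⟨s - 3, by omega⟩
  refine ⟨mat n, mat_symm n, mat_det n, fun hH => ?_⟩
  exact no_rat_zero hk2 he n (hH (real_zero hk n) (fun p hp => padic_zero hk n (by omega) p))

/-- **Theorem.** Let `k > 0` be even. For every `s ≥ (2 k) ^ 3 + 2` there is a nonsingular quadratic
form `Q` in `s` variables over `ℚ` such that `F = Q(y₁ ^ k, …, y_s ^ k)` violates the Hasse principle;
so `h(k) = ∞`. Hence `log h(k) = o(k)` is false: it is not true that for every `ε > 0` the number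
`h(k)` is finite and `log h(k) ≤ ε k` for all large `k`. -/
theorem result : (∀ k : ℕ, 0 < k → Even k →
      (∀ s : ℕ, (2 * k) ^ 3 + 2 ≤ s → ∃ A : Matrix (Fin s) (Fin s) ℚ,
        A.IsSymm ∧ A.det ≠ 0 ∧ ¬ HassePrinciple k A) ∧ h k = ⊤) ∧
    ¬ ∀ ε : ℝ, 0 < ε → ∀ᶠ k : ℕ in Filter.atTop,
      ∃ s₀ : ℕ, h k = s₀ ∧ Real.log s₀ ≤ ε * k := by
  have main : ∀ k : ℕ, 0 < k → Even k → h k = ⊤ := by
    intro k hk he
    unfold h
    rw [iInf₂_eq_top]
    rintro s₀ ⟨_, hs₀⟩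
    exfalso
    obtain ⟨A, hA, hdet, hno⟩ := fails hk he (max s₀ ((2 * k) ^ 3 + 2)) (le_max_right _ _)
    exact hno (hs₀ _ (le_max_left _ _) A hA hdet)
  refine ⟨fun k hk he => ⟨fun s hs => fails hk he s hs, main k hk he⟩, fun hall => ?_⟩
  obtain ⟨K, hK⟩ := Filter.eventually_atTop.1 (hall 1 one_pos)
  obtain ⟨s₀, h1, -⟩ := hK (2 * (K + 1)) (by omega)
  rw [main (2 * (K + 1)) (by omega) (even_two_mul _)] at h1
  exact ENat.top_ne_natCast s₀ h1

end Pool.Agent.Results.MP_c0a553_nt.EvenExponents
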